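import Mathlib

/-!
# Operator inequalities in C*-algebras

For strictly positive `s`, `t` in a C*-algebra and `0 < r ≤ 1`:
if `(t ^ (1/2) * s * t ^ (1/2)) ^ r ≤ s` then `t ^ r ≤ s ^ (1 - r)`.
-/

set_option autoImplicit false

open scoped NNReal

namespace Pool.Agent.L5helper83.Det

section OI

variable {A : Type*} [CStarAlgebra A] [PartialOrder A] [StarOrderedRing A]

lemma add_rpow {a : A} (ha : IsStrictlyPositive a) (x y : ℝ) : a ^ x * a ^ y = a ^ (x + y) :=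
  (CFC.rpow_add ha.isUnit).symm

lemma rr {a : A} (ha : IsStrictlyPositive a) (x y : ℝ) : (a ^ x) ^ y = a ^ (x * y) := by
  by_cases hx : x = 0
  · subst hx
    rw [CFC.rpow_zero a ha.nonneg, CFC.one_rpow, zero_mul, CFC.rpow_zero a ha.nonneg]
  · exact CFC.rpow_rpow a x y hx ha

lemma sa {a : A} (q : ℝ) : star (a ^ q) = a ^ q :=
  (IsSelfAdjoint.of_nonneg CFC.rpow_nonneg).star_eq

lemma conj_le {a b : A} (h : a ≤ b) (c : A) : c * a * star c ≤ c * b * star c := by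
  have := star_left_conjugate_le_conjugate h (star c)
  rwa [star_star] at this

lemma conj_le' {a b : A} (h : a ≤ b) {c : A} (hc : star c = c) : c * a * c ≤ c * b * c := by
  have := conj_le h c
  rwa [hc] at this

lemma rpow_conj (u : unitary A) {a : A} (ha : IsStrictlyPositive a) (q : ℝ) :
    ((u : A) * a * star (u : A)) ^ q = u * a ^ q * star (u : A) := by
  have h1 : ((u : A) * a * star (u : A)) = Unitary.conjStarAlgAut ℂ A u a := rfl
  have h2 : (u : A) * a ^ q * star (u : A) = Unitary.conjStarAlgAut ℂ A u (a ^ q) := rfl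
  rw [h1, h2, CFC.rpow_def, CFC.rpow_def]
  symm
  have hpos : 0 ≤ (u : A) * a * star (u : A) := by
    have := conj_le ha.nonneg (u : A)
    simpa using this
  refine StarAlgHomClass.map_cfc (S := ℂ) (Unitary.conjStarAlgAut ℂ A u) _ a ?_ ?_ ha.nonneg hpos
  · intro x hx
    have hx0 : x ≠ 0 := by
      rintro rfl
      exact (spectrum.zero_notMem_iff (R := ℝ≥0)).2 ha.isUnit hx
    exact (NNReal.continuousAt_rpow_const (Or.inl hx0)).continuousWithinAt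
  · show Continuous (fun x : A => (u : A) * x * star (u : A))
    fun_prop

lemma sp_star_mul {x : A} (hx : IsUnit x) : IsStrictlyPositive (star x * x) := by
  rw [IsStrictlyPositive.iff_of_unital]
  exact ⟨star_mul_self_nonneg x, hx.star.mul hx⟩

lemma sp_mul_star {x : A} (hx : IsUnit x) : IsStrictlyPositive (x * star x) := by
  rw [IsStrictlyPositive.iff_of_unital]
  exact ⟨mul_star_self_nonneg x, hx.mul hx.star⟩

/-- `(x x*) ^ q = x (x* x) ^ (q - 1) x*` -/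
lemma rpow_mul_star {x : A} (hx : IsUnit x) (q : ℝ) :
    (x * star x) ^ q = x * (star x * x) ^ (q - 1) * star x := by
  set a := star x * x with ha
  have hap : IsStrictlyPositive a := sp_star_mul hx
  -- the unitary
  have h1 : star (x * a ^ (-(1 / 2) : ℝ)) * (x * a ^ (-(1 / 2) : ℝ)) = 1 := by
    rw [star_mul, sa]
    calc a ^ (-(1 / 2) : ℝ) * star x * (x * a ^ (-(1 / 2) : ℝ))
        = a ^ (-(1 / 2) : ℝ) * (star x * x) * a ^ (-(1 / 2) : ℝ) := by noncomm_ring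
      _ = a ^ (-(1 / 2) : ℝ) * a ^ (1 : ℝ) * a ^ (-(1 / 2) : ℝ) := by
          rw [CFC.rpow_one a hap.nonneg]
      _ = 1 := by
          rw [add_rpow hap, add_rpow hap]
          norm_num
          exact CFC.rpow_zero a hap.nonneg
  have hu : IsUnit (x * a ^ (-(1 / 2) : ℝ)) := hx.mul (hap.rpow a _).isUnit
  have h2 : (x * a ^ (-(1 / 2) : ℝ)) * star (x * a ^ (-(1 / 2) : ℝ)) = 1 := by
    obtain ⟨v, hv⟩ := hu
    rw [← hv] at h1 ⊢
    have : star (v : A) = ((v⁻¹ : Aˣ) : A) := by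
      calc star (v : A) = star (v : A) * ((v : A) * ((v⁻¹ : Aˣ) : A)) := by simp
        _ = (star (v : A) * (v : A)) * ((v⁻¹ : Aˣ) : A) := by rw [mul_assoc]
        _ = _ := by rw [h1, one_mul]
    rw [this]
    simp
  let u : unitary A := ⟨x * a ^ (-(1 / 2) : ℝ), Unitary.mem_iff.2 ⟨h1, h2⟩⟩
  have h3 : x * star x = (u : A) * a * star (u : A) := by
    show x * star x = (x * a ^ (-(1 / 2) : ℝ)) * a * star (x * a ^ (-(1 / 2) : ℝ))
    rw [star_mul, sa]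
    calc x * star x = x * a ^ (0 : ℝ) * star x := by rw [CFC.rpow_zero a hap.nonneg, mul_one]
      _ = x * (a ^ (-(1 / 2) : ℝ) * a ^ (1 : ℝ) * a ^ (-(1 / 2) : ℝ)) * star x := by
          rw [add_rpow hap, add_rpow hap]; norm_num
      _ = _ := by rw [CFC.rpow_one a hap.nonneg]; noncomm_ring
  rw [h3, rpow_conj u hap]
  show (x * a ^ (-(1 / 2) : ℝ)) * a ^ q * star (x * a ^ (-(1 / 2) : ℝ)) = _
  rw [star_mul, sa]
  calc x * a ^ (-(1 / 2) : ℝ) * a ^ q * (a ^ (-(1 / 2) : ℝ) * star x)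
      = x * (a ^ (-(1 / 2) : ℝ) * a ^ q * a ^ (-(1 / 2) : ℝ)) * star x := by noncomm_ring
    _ = _ := by
        rw [add_rpow hap, add_rpow hap]
        congr 3
        ring

/-- the powers with exponents in `[-1, 0]` are antitone -/
lemma rpow_anti {a b : A} (ha : IsStrictlyPositive a) (h : a ≤ b) {q : ℝ} (h0 : 0 ≤ q)
    (h1 : q ≤ 1) : b ^ (-q) ≤ a ^ (-q) := by
  have hb : IsStrictlyPositive b := ha.of_le h
  have h2 : a ^ q ≤ b ^ q := CFC.rpow_le_rpow ⟨h0, h1⟩ h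
  have h3 := CStarAlgebra.rpow_neg_one_le_rpow_neg_one h2 (ha.rpow a q)
  rw [rr ha, rr hb] at h3
  simpa using h3

/-- **Furuta's inequality**, a special case -/
lemma furuta {p s : A} (hp : IsStrictlyPositive p) (h : p ≤ s) {α : ℝ} (hα : 1 ≤ α) :
    (s ^ (1 / 2 : ℝ) * p ^ α * s ^ (1 / 2 : ℝ)) ^ (2 / (1 + α)) ≤ s ^ (2 : ℝ) := by
  have hs : IsStrictlyPositive s := hp.of_le h
  obtain ⟨x, hx⟩ : ∃ x, x = s ^ (1 / 2 : ℝ) * p ^ (α / 2) := ⟨_, rfl⟩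
  have hxu : IsUnit x := by rw [hx]; exact (hs.rpow s _).isUnit.mul (hp.rpow p _).isUnit
  have hsx : star x = p ^ (α / 2) * s ^ (1 / 2 : ℝ) := by rw [hx, star_mul, sa, sa]
  have h1 : x * star x = s ^ (1 / 2 : ℝ) * p ^ α * s ^ (1 / 2 : ℝ) := by
    rw [hsx, hx]
    calc s ^ (1 / 2 : ℝ) * p ^ (α / 2) * (p ^ (α / 2) * s ^ (1 / 2 : ℝ))
        = s ^ (1 / 2 : ℝ) * (p ^ (α / 2) * p ^ (α / 2)) * s ^ (1 / 2 : ℝ) := by noncomm_ring
      _ = _ := by rw [add_rpow hp]; congr 3; ring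
  have h2 : star x * x = p ^ (α / 2) * s * p ^ (α / 2) := by
    rw [hsx, hx]
    calc p ^ (α / 2) * s ^ (1 / 2 : ℝ) * (s ^ (1 / 2 : ℝ) * p ^ (α / 2))
        = p ^ (α / 2) * (s ^ (1 / 2 : ℝ) * s ^ (1 / 2 : ℝ)) * p ^ (α / 2) := by noncomm_ring
      _ = _ := by
        rw [add_rpow hs]
        norm_num
        rw [CFC.rpow_one s hs.nonneg]
  have h3 : p ^ (α + 1) ≤ star x * x := by
    rw [h2]
    calc p ^ (α + 1) = p ^ (α / 2) * p ^ (1 : ℝ) * p ^ (α / 2) := by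
          rw [add_rpow hp, add_rpow hp]; congr 1; ring
      _ = p ^ (α / 2) * p * p ^ (α / 2) := by rw [CFC.rpow_one p hp.nonneg]
      _ ≤ _ := conj_le' h (sa _)
  rw [← h1, rpow_mul_star hxu]
  have hα1 : 0 < 1 + α := by linarith
  have h4 : (star x * x) ^ (2 / (1 + α) - 1) ≤ p ^ (1 - α) := by
    have e1 : 2 / (1 + α) - 1 = -((α - 1) / (1 + α)) := by field_simp; ring
    rw [e1]
    have h5 := rpow_anti (hp.rpow p (α + 1)) h3 (q := (α - 1) / (1 + α))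
      (div_nonneg (by linarith) hα1.le) (by rw [div_le_one hα1]; linarith)
    rw [rr hp] at h5
    have e2 : (α + 1) * -((α - 1) / (1 + α)) = 1 - α := by field_simp; ring
    rwa [e2] at h5
  calc x * (star x * x) ^ (2 / (1 + α) - 1) * star x ≤ x * p ^ (1 - α) * star x := conj_le h4 x
    _ = s ^ (1 / 2 : ℝ) * (p ^ (α / 2) * p ^ (1 - α) * p ^ (α / 2)) * s ^ (1 / 2 : ℝ) := by
        rw [hsx, hx]; noncomm_ring
    _ = s ^ (1 / 2 : ℝ) * p * s ^ (1 / 2 : ℝ) := by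
        rw [add_rpow hp, add_rpow hp]
        have e : α / 2 + (1 - α) + α / 2 = 1 := by ring
        rw [e, CFC.rpow_one p hp.nonneg]
    _ ≤ s ^ (1 / 2 : ℝ) * s * s ^ (1 / 2 : ℝ) := conj_le' h (sa _)
    _ = s ^ (1 / 2 : ℝ) * s ^ (1 : ℝ) * s ^ (1 / 2 : ℝ) := by rw [CFC.rpow_one s hs.nonneg]
    _ = s ^ (2 : ℝ) := by rw [add_rpow hs, add_rpow hs]; norm_num

/-- the inequality for `1 / 2 ≤ r ≤ 1` -/
lemma oi_large {s t : A} (hs : IsStrictlyPositive s) (ht : IsStrictlyPositive t) {r : ℝ}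
    (h0 : 1 / 2 ≤ r) (h1 : r ≤ 1)
    (h : (t ^ (1 / 2 : ℝ) * s * t ^ (1 / 2 : ℝ)) ^ r ≤ s) : t ^ r ≤ s ^ (1 - r) := by
  have hr : 0 < r := by linarith
  obtain ⟨w, hw⟩ : ∃ w, w = t ^ (1 / 2 : ℝ) * s * t ^ (1 / 2 : ℝ) := ⟨_, rfl⟩
  have hwp : IsStrictlyPositive w := by
    rw [IsStrictlyPositive.iff_of_unital]
    refine ⟨?_, ?_⟩
    · have := conj_le' hs.nonneg (c := t ^ (1 / 2 : ℝ)) (sa _)
      rw [hw]
      simpa using this
    · rw [hw]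
      exact ((ht.rpow t _).isUnit.mul hs.isUnit).mul (ht.rpow t _).isUnit
  rw [← hw] at h
  obtain ⟨p, hp⟩ : ∃ p, p = w ^ r := ⟨_, rfl⟩
  have hpp : IsStrictlyPositive p := by rw [hp]; exact hwp.rpow w r
  rw [← hp] at h
  have hwpow : p ^ (1 / r) = w := by
    rw [hp, rr hwp, mul_one_div_cancel hr.ne', CFC.rpow_one w hwp.nonneg]
  have hα : 1 ≤ 1 / r := by rw [le_div_iff₀ hr]; linarith
  have hF := furuta hpp h hα
  rw [hwpow] at hF
  -- `y = s^{1/2} t^{1/2} s^{1/2}`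
  obtain ⟨y, hy⟩ : ∃ y, y = s ^ (1 / 2 : ℝ) * t ^ (1 / 2 : ℝ) * s ^ (1 / 2 : ℝ) := ⟨_, rfl⟩
  have hyp : IsStrictlyPositive y := by
    rw [IsStrictlyPositive.iff_of_unital]
    refine ⟨?_, ?_⟩
    · have := conj_le' (CFC.rpow_nonneg (a := t) (y := (1 / 2 : ℝ))) (c := s ^ (1 / 2 : ℝ)) (sa _)
      rw [hy]
      simpa using this
    · rw [hy]
      exact ((hs.rpow s _).isUnit.mul (ht.rpow t _).isUnit).mul (hs.rpow s _).isUnit
  have hss : s ^ (1 / 2 : ℝ) * s ^ (1 / 2 : ℝ) = s := by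
    rw [add_rpow hs]; norm_num; exact CFC.rpow_one s hs.nonneg
  have hy2 : s ^ (1 / 2 : ℝ) * w * s ^ (1 / 2 : ℝ) = y ^ (2 : ℝ) := by
    have : y ^ (2 : ℝ) = y * y := by
      have := CFC.rpow_natCast y 2 hyp.nonneg
      rw [← sq, ← this]; norm_num
    rw [this, hy, hw]
    calc s ^ (1 / 2 : ℝ) * (t ^ (1 / 2 : ℝ) * s * t ^ (1 / 2 : ℝ)) * s ^ (1 / 2 : ℝ)
        = s ^ (1 / 2 : ℝ) * (t ^ (1 / 2 : ℝ) * (s ^ (1 / 2 : ℝ) * s ^ (1 / 2 : ℝ)) *
            t ^ (1 / 2 : ℝ)) * s ^ (1 / 2 : ℝ) := by rw [hss]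
      _ = _ := by noncomm_ring
  rw [hy2, rr hyp] at hF
  -- `b = y ^ (4 / (1 + α)) ≤ s²`
  obtain ⟨b, hb⟩ : ∃ b, b = y ^ (2 * (2 / (1 + 1 / r))) := ⟨_, rfl⟩
  rw [← hb] at hF
  have hbp : IsStrictlyPositive b := by rw [hb]; exact hyp.rpow y _
  obtain ⟨k, hk⟩ : ∃ k, k = (1 + r) / (4 * r) := ⟨_, rfl⟩
  have hyb : b ^ k = y := by
    rw [hb, rr hyp, hk]
    have : 2 * (2 / (1 + 1 / r)) * ((1 + r) / (4 * r)) = 1 := by
      have : 1 + r ≠ 0 := by linarith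
      field_simp
      ring
    rw [this, CFC.rpow_one y hyp.nonneg]
  -- `t^{1/2} = s^{-1/2} b^k s^{-1/2}`
  have hsinv : s ^ (-(1 / 2) : ℝ) * s ^ (1 / 2 : ℝ) = 1 := by
    rw [add_rpow hs]; norm_num; exact CFC.rpow_zero s hs.nonneg
  have hsinv' : s ^ (1 / 2 : ℝ) * s ^ (-(1 / 2) : ℝ) = 1 := by
    rw [add_rpow hs]; norm_num; exact CFC.rpow_zero s hs.nonneg
  have htt : t ^ (1 / 2 : ℝ) = s ^ (-(1 / 2) : ℝ) * b ^ k * s ^ (-(1 / 2) : ℝ) := by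
    rw [hyb, hy]
    calc t ^ (1 / 2 : ℝ) = (s ^ (-(1 / 2) : ℝ) * s ^ (1 / 2 : ℝ)) * t ^ (1 / 2 : ℝ) *
          (s ^ (1 / 2 : ℝ) * s ^ (-(1 / 2) : ℝ)) := by rw [hsinv, hsinv', one_mul, mul_one]
      _ = _ := by noncomm_ring
  obtain ⟨x, hx⟩ : ∃ x, x = s ^ (-(1 / 2) : ℝ) * b ^ (k / 2) := ⟨_, rfl⟩
  have hxu : IsUnit x := by rw [hx]; exact (hs.rpow s _).isUnit.mul (hbp.rpow b _).isUnit
  have hsx : star x = b ^ (k / 2) * s ^ (-(1 / 2) : ℝ) := by rw [hx, star_mul, sa, sa]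
  have hxx : x * star x = t ^ (1 / 2 : ℝ) := by
    rw [hsx, hx, htt]
    calc s ^ (-(1 / 2) : ℝ) * b ^ (k / 2) * (b ^ (k / 2) * s ^ (-(1 / 2) : ℝ))
        = s ^ (-(1 / 2) : ℝ) * (b ^ (k / 2) * b ^ (k / 2)) * s ^ (-(1 / 2) : ℝ) := by noncomm_ring
      _ = _ := by rw [add_rpow hbp]; congr 3; ring
  have hxx' : star x * x = b ^ (k / 2) * s ^ (-1 : ℝ) * b ^ (k / 2) := by
    rw [hsx, hx]
    calc b ^ (k / 2) * s ^ (-(1 / 2) : ℝ) * (s ^ (-(1 / 2) : ℝ) * b ^ (k / 2))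
        = b ^ (k / 2) * (s ^ (-(1 / 2) : ℝ) * s ^ (-(1 / 2) : ℝ)) * b ^ (k / 2) := by noncomm_ring
      _ = _ := by rw [add_rpow hs]; norm_num
  have hb12 : b ^ (1 / 2 : ℝ) ≤ s := by
    have := CFC.rpow_le_rpow (p := (1 / 2 : ℝ)) ⟨by norm_num, by norm_num⟩ hF
    rw [rr hs] at this
    norm_num at this
    rwa [CFC.rpow_one s hs.nonneg] at this
  have hsb : s ^ (-1 : ℝ) ≤ b ^ (-(1 / 2) : ℝ) := by
    have := rpow_anti (hbp.rpow b _) hb12 (q := 1) zero_le_one le_rfl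
    rw [rr hbp] at this
    norm_num at this ⊢
    exact this
  have h5 : star x * x ≤ b ^ (k - 1 / 2) := by
    rw [hxx']
    calc b ^ (k / 2) * s ^ (-1 : ℝ) * b ^ (k / 2) ≤ b ^ (k / 2) * b ^ (-(1 / 2) : ℝ) * b ^ (k / 2) :=
          conj_le' hsb (sa _)
      _ = _ := by rw [add_rpow hbp, add_rpow hbp]; congr 1; ring
  have h6 : (star x * x) ^ (2 * r - 1) ≤ b ^ ((k - 1 / 2) * (2 * r - 1)) := by
    have := CFC.rpow_le_rpow (p := 2 * r - 1) ⟨by linarith, by linarith⟩ h5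
    rwa [rr hbp] at this
  have h7 : t ^ r = x * (star x * x) ^ (2 * r - 1) * star x := by
    rw [← rpow_mul_star hxu, hxx, rr ht]
    congr 1
    ring
  rw [h7]
  calc x * (star x * x) ^ (2 * r - 1) * star x ≤ x * b ^ ((k - 1 / 2) * (2 * r - 1)) * star x :=
        conj_le h6 x
    _ = s ^ (-(1 / 2) : ℝ) * (b ^ (k / 2) * b ^ ((k - 1 / 2) * (2 * r - 1)) * b ^ (k / 2)) *
        s ^ (-(1 / 2) : ℝ) := by rw [hsx, hx]; noncomm_ring
    _ = s ^ (-(1 / 2) : ℝ) * b ^ (1 - r / 2) * s ^ (-(1 / 2) : ℝ) := by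
        rw [add_rpow hbp, add_rpow hbp]
        congr 3
        rw [hk]
        field_simp
        ring
    _ ≤ s ^ (-(1 / 2) : ℝ) * s ^ (2 - r) * s ^ (-(1 / 2) : ℝ) := by
        refine conj_le' ?_ (sa _)
        have := CFC.rpow_le_rpow (p := 1 - r / 2) ⟨by linarith, by linarith⟩ hF
        rw [rr hs] at this
        have e : 2 * (1 - r / 2) = 2 - r := by ring
        rwa [e] at this
    _ = s ^ (1 - r) := by
        rw [add_rpow hs, add_rpow hs]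
        congr 1
        ring

/-- the inequality for `0 < r ≤ 1 / 2` -/
lemma oi_small {s t : A} (hs : IsStrictlyPositive s) (ht : IsStrictlyPositive t) {r : ℝ}
    (h0 : 0 < r) (h1 : r ≤ 1 / 2)
    (h : (t ^ (1 / 2 : ℝ) * s * t ^ (1 / 2 : ℝ)) ^ r ≤ s) : t ^ r ≤ s ^ (1 - r) := by
  obtain ⟨w, hw⟩ : ∃ w, w = t ^ (1 / 2 : ℝ) * s * t ^ (1 / 2 : ℝ) := ⟨_, rfl⟩
  have hwp : IsStrictlyPositive w := by
    rw [IsStrictlyPositive.iff_of_unital]
    refine ⟨?_, ?_⟩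
    · have := conj_le' hs.nonneg (c := t ^ (1 / 2 : ℝ)) (sa _)
      rw [hw]
      simpa using this
    · rw [hw]
      exact ((ht.rpow t _).isUnit.mul hs.isUnit).mul (ht.rpow t _).isUnit
  rw [← hw] at h
  -- `w^{r/2} t^{1/2} w^r t^{1/2} w^{r/2} ≤ w^{r/2} w w^{r/2}`
  have h2 : t ^ (1 / 2 : ℝ) * w ^ r * t ^ (1 / 2 : ℝ) ≤ w := by
    conv_rhs => rw [hw]
    exact conj_le' h (sa _)
  have h3 := conj_le' h2 (c := w ^ (r / 2)) (sa _)
  obtain ⟨y, hy⟩ : ∃ y, y = w ^ (r / 2) * t ^ (1 / 2 : ℝ) * w ^ (r / 2) := ⟨_, rfl⟩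
  have hyp : IsStrictlyPositive y := by
    rw [IsStrictlyPositive.iff_of_unital]
    refine ⟨?_, ?_⟩
    · have := conj_le' (CFC.rpow_nonneg (a := t) (y := (1 / 2 : ℝ))) (c := w ^ (r / 2)) (sa _)
      rw [hy]
      simpa using this
    · rw [hy]
      exact ((hwp.rpow w _).isUnit.mul (ht.rpow t _).isUnit).mul (hwp.rpow w _).isUnit
  have hww : w ^ (r / 2) * w ^ (r / 2) = w ^ r := by
    rw [add_rpow hwp]; congr 1; ring
  have h4 : w ^ (r / 2) * (t ^ (1 / 2 : ℝ) * w ^ r * t ^ (1 / 2 : ℝ)) * w ^ (r / 2) =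
      y ^ (2 : ℝ) := by
    have : y ^ (2 : ℝ) = y * y := by
      have := CFC.rpow_natCast y 2 hyp.nonneg
      rw [← sq, ← this]; norm_num
    rw [this, hy, ← hww]
    noncomm_ring
  have h5 : w ^ (r / 2) * w * w ^ (r / 2) = w ^ (1 + r) := by
    calc w ^ (r / 2) * w * w ^ (r / 2) = w ^ (r / 2) * w ^ (1 : ℝ) * w ^ (r / 2) := by
          rw [CFC.rpow_one w hwp.nonneg]
      _ = _ := by rw [add_rpow hwp, add_rpow hwp]; congr 1; ring
  rw [h4, h5] at h3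
  have h6 : y ≤ w ^ ((1 + r) / 2) := by
    have := CFC.rpow_le_rpow (p := (1 / 2 : ℝ)) ⟨by norm_num, by norm_num⟩ h3
    rw [rr hyp, rr hwp] at this
    have e1 : (2 : ℝ) * (1 / 2) = 1 := by norm_num
    have e2 : (1 + r) * (1 / 2) = (1 + r) / 2 := by ring
    rwa [e1, e2, CFC.rpow_one y hyp.nonneg] at this
  have h7 := conj_le' h6 (c := w ^ (-(r / 2))) (sa _)
  have e3 : w ^ (-(r / 2)) * y * w ^ (-(r / 2)) = t ^ (1 / 2 : ℝ) := by
    have i1 : w ^ (-(r / 2)) * w ^ (r / 2) = 1 := by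
      rw [add_rpow hwp]; rw [neg_add_cancel]; exact CFC.rpow_zero w hwp.nonneg
    have i2 : w ^ (r / 2) * w ^ (-(r / 2)) = 1 := by
      rw [add_rpow hwp]; rw [add_neg_cancel]; exact CFC.rpow_zero w hwp.nonneg
    rw [hy]
    calc w ^ (-(r / 2)) * (w ^ (r / 2) * t ^ (1 / 2 : ℝ) * w ^ (r / 2)) * w ^ (-(r / 2))
        = (w ^ (-(r / 2)) * w ^ (r / 2)) * t ^ (1 / 2 : ℝ) * (w ^ (r / 2) * w ^ (-(r / 2))) := by
          noncomm_ring
      _ = _ := by rw [i1, i2, one_mul, mul_one]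
  have e4 : w ^ (-(r / 2)) * w ^ ((1 + r) / 2) * w ^ (-(r / 2)) = w ^ ((1 - r) / 2) := by
    rw [add_rpow hwp, add_rpow hwp]; congr 1; ring
  rw [e3, e4] at h7
  -- powers
  have h8 := CFC.rpow_le_rpow (p := 2 * r) ⟨by linarith, by linarith⟩ h7
  rw [rr ht, rr hwp] at h8
  have e5 : 1 / 2 * (2 * r) = r := by ring
  have e6 : (1 - r) / 2 * (2 * r) = r * (1 - r) := by ring
  rw [e5, e6] at h8
  have h9 := CFC.rpow_le_rpow (p := 1 - r) ⟨by linarith, by linarith⟩ h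
  rw [rr hwp] at h9
  exact h8.trans h9

/-- **Main operator inequality.** -/
theorem oi {s t : A} (hs : IsStrictlyPositive s) (ht : IsStrictlyPositive t) {r : ℝ}
    (h0 : 0 < r) (h1 : r ≤ 1)
    (h : (t ^ (1 / 2 : ℝ) * s * t ^ (1 / 2 : ℝ)) ^ r ≤ s) : t ^ r ≤ s ^ (1 - r) := by
  rcases le_total r (1 / 2) with h2 | h2
  · exact oi_small hs ht h0 h2 h
  · exact oi_large hs ht h2 h1 h

/-- positive scalars -/
lemma smul_rpow {a : A} (ha : 0 ≤ a) (hau : IsUnit a) (c : ℝ≥0) (hc : c ≠ 0) (q : ℝ) :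
    (c • a) ^ q = (c ^ q) • a ^ q := by
  rw [CFC.rpow_def, CFC.rpow_def]
  have hcont : ContinuousOn (fun x : ℝ≥0 => x ^ q) ((fun x => c • x) '' spectrum ℝ≥0 a) := by
    rintro _ ⟨x, hx, rfl⟩
    have hx0 : x ≠ 0 := by
      rintro rfl
      exact (spectrum.zero_notMem_iff (R := ℝ≥0)).2 hau hx
    exact (NNReal.continuousAt_rpow_const (Or.inl (by
      simp only [smul_eq_mul]; exact mul_ne_zero hc hx0))).continuousWithinAt
  have hcont' : ContinuousOn (fun x : ℝ≥0 => x ^ q) (spectrum ℝ≥0 a) := by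
    intro x hx
    have hx0 : x ≠ 0 := by
      rintro rfl
      exact (spectrum.zero_notMem_iff (R := ℝ≥0)).2 hau hx
    exact (NNReal.continuousAt_rpow_const (Or.inl hx0)).continuousWithinAt
  rw [← cfc_comp_smul c (fun x : ℝ≥0 => x ^ q) a hcont]
  rw [← cfc_smul (c ^ q) (fun x : ℝ≥0 => x ^ q) a hcont']
  refine cfc_congr fun x _ => ?_
  simp only [smul_eq_mul]
  exact NNReal.mul_rpow

/-- the scaled version -/
theorem oi_smul {s t : A} (hs : IsStrictlyPositive s) (ht : IsStrictlyPositive t) {r : ℝ}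
    (h0 : 0 < r) (h1 : r ≤ 1) (c : ℝ≥0) (hc : c ≠ 0)
    (h : (t ^ (1 / 2 : ℝ) * s * t ^ (1 / 2 : ℝ)) ^ r ≤ c • s) : t ^ r ≤ c • s ^ (1 - r) := by
  -- `t' = c ^ (-1/r) t`
  obtain ⟨e, he⟩ : ∃ e : ℝ≥0, e = c ^ (-(1 / r)) := ⟨_, rfl⟩
  have he0 : e ≠ 0 := by
    rw [he]
    exact (NNReal.rpow_pos (pos_iff_ne_zero.2 hc)).ne'
  have her : e ^ r = c⁻¹ := by
    rw [he, ← NNReal.rpow_mul]
    have : -(1 / r) * r = -1 := by field_simp
    rw [this, NNReal.rpow_neg_one]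
  have ht' : IsStrictlyPositive (e • t) := by
    rw [IsStrictlyPositive.iff_of_unital]
    refine ⟨smul_nonneg zero_le ht.nonneg, ?_⟩
    have : e • t = (e : ℝ) • t := rfl
    rw [this]
    exact (isUnit_smul_iff (Units.mk0 (e : ℝ) (by exact_mod_cast he0)) t).2 ht.isUnit
  have h2 : ((e • t) ^ (1 / 2 : ℝ) * s * (e • t) ^ (1 / 2 : ℝ)) ^ r ≤ s := by
    rw [smul_rpow ht.nonneg ht.isUnit e he0]
    have e1 : (e ^ (1 / 2 : ℝ)) • t ^ (1 / 2 : ℝ) * s * (e ^ (1 / 2 : ℝ)) • t ^ (1 / 2 : ℝ) =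
        e • (t ^ (1 / 2 : ℝ) * s * t ^ (1 / 2 : ℝ)) := by
      rw [smul_mul_assoc, smul_mul_assoc, mul_smul_comm, smul_smul, ← NNReal.rpow_add he0]
      norm_num
    rw [e1]
    have hw : IsStrictlyPositive (t ^ (1 / 2 : ℝ) * s * t ^ (1 / 2 : ℝ)) := by
      rw [IsStrictlyPositive.iff_of_unital]
      refine ⟨?_, ?_⟩
      · have := conj_le' hs.nonneg (c := t ^ (1 / 2 : ℝ)) (sa _)
        simpa using this
      · exact ((ht.rpow t _).isUnit.mul hs.isUnit).mul (ht.rpow t _).isUnit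
    rw [smul_rpow hw.nonneg hw.isUnit e he0, her]
    calc c⁻¹ • (t ^ (1 / 2 : ℝ) * s * t ^ (1 / 2 : ℝ)) ^ r ≤ c⁻¹ • (c • s) :=
          smul_le_smul_of_nonneg_left h zero_le
      _ = s := by rw [smul_smul, inv_mul_cancel₀ hc, one_smul]
  have h3 := oi hs ht' h0 h1 h2
  rw [smul_rpow ht.nonneg ht.isUnit e he0, her] at h3
  calc t ^ r = c • (c⁻¹ • t ^ r) := by rw [smul_smul, mul_inv_cancel₀ hc, one_smul]
    _ ≤ c • s ^ (1 - r) := smul_le_smul_of_nonneg_left h3 zero_le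

end OI

end Pool.Agent.L5helper83.Det
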