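import Pool.Agent.N996.FP.Cm
import Pool.Agent.L5helper83.Det.OI

/-!
# Compounds of order `k` and powers of positive definite matrices
-/

set_option autoImplicit false

open scoped MatrixOrder ComplexOrder Matrix.Norms.L2Operator
open Matrix Pool.Agent.N996.FP

namespace Pool.Agent.L5helper83.Det

/-- the subsets of `Fin n` with `k` elements -/
abbrev Ix (n k : ℕ) := {S : Finset (Fin n) // S.card = k}

/-- the compound matrix of order `k` -/
def ck {n : ℕ} (k : ℕ) (M : Matrix (Fin n) (Fin n) ℂ) : Matrix (Ix n k) (Ix n k) ℂ :=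
  (cm M).submatrix Subtype.val Subtype.val

variable {n : ℕ} (k : ℕ)

lemma ck_mul (M N : Matrix (Fin n) (Fin n) ℂ) : ck k (M * N) = ck k M * ck k N := by
  ext S T
  rw [ck, cm_mul, Matrix.submatrix_apply, Matrix.mul_apply, Matrix.mul_apply]
  have h : ∀ R : Finset (Fin n), R ∉ (Finset.univ.filter fun R : Finset (Fin n) => R.card = k) →
      cm M S.1 R * cm N R T.1 = 0 := by
    intro R hR
    rw [Finset.mem_filter] at hR
    rw [cm_ne (M := M), zero_mul]
    intro h
    exact hR ⟨Finset.mem_univ _, by rw [← h]; exact S.2⟩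
  rw [← Finset.sum_subset (Finset.subset_univ _) (fun R _ hR => h R hR)]
  exact Finset.sum_subtype (Finset.univ.filter fun R : Finset (Fin n) => R.card = k)
    (fun R => by simp) (fun R => cm M S.1 R * cm N R T.1)

lemma ck_diagonal (d : Fin n → ℂ) :
    ck k (diagonal d) = diagonal (fun S : Ix n k => ∏ i ∈ S.1, d i) := by
  ext S T
  rw [ck, Matrix.submatrix_apply, cm_apply S.2 T.2]
  by_cases h : S = T
  · subst h
    rw [diagonal_apply_eq]
    have h1 : (diagonal d).submatrix (S.1.orderEmbOfFin S.2) (S.1.orderEmbOfFin S.2) =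
        diagonal (fun i => d (S.1.orderEmbOfFin S.2 i)) := by
      ext a b
      rw [Matrix.submatrix_apply, Matrix.diagonal_apply, Matrix.diagonal_apply]
      refine if_congr ?_ rfl rfl
      exact (S.1.orderEmbOfFin S.2).injective.eq_iff
    rw [h1, det_diagonal]
    have h2 : Finset.univ.image (S.1.orderEmbOfFin S.2) = S.1 := by
      ext x
      rw [Finset.mem_image]
      constructor
      · rintro ⟨a, -, rfl⟩
        exact S.1.orderEmbOfFin_mem S.2 a
      · intro hx
        have h3 := S.1.range_orderEmbOfFin S.2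
        rw [Set.ext_iff] at h3
        obtain ⟨a, ha⟩ := (h3 x).2 hx
        exact ⟨a, Finset.mem_univ _, ha⟩
    conv_rhs => rw [← h2]
    rw [Finset.prod_image (fun a _ b _ hab => (S.1.orderEmbOfFin S.2).injective hab)]
  · rw [diagonal_apply_ne _ h]
    have h2 : ¬ S.1 ⊆ T.1 := by
      intro h3
      exact h (Subtype.ext (Finset.eq_of_subset_of_card_le h3 (by rw [S.2, T.2])))
    rw [Finset.not_subset] at h2
    obtain ⟨x, hx, hxT⟩ := h2
    have h3 := S.1.range_orderEmbOfFin S.2
    rw [Set.ext_iff] at h3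
    obtain ⟨a, ha⟩ := (h3 x).2 hx
    refine Matrix.det_eq_zero_of_row_eq_zero a fun b => ?_
    rw [Matrix.submatrix_apply, Matrix.diagonal_apply_ne]
    rw [ha]
    intro h4
    rw [h4] at hxT
    exact hxT (T.1.orderEmbOfFin_mem T.2 b)

lemma ck_one : ck k (1 : Matrix (Fin n) (Fin n) ℂ) = 1 := by
  rw [← diagonal_one, ck_diagonal]
  simp

lemma ck_star (M : Matrix (Fin n) (Fin n) ℂ) : ck k (star M) = star (ck k M) := by
  rw [star_eq_conjTranspose, star_eq_conjTranspose]
  have h1 : Mᴴ = (M.map (starRingEnd ℂ))ᵀ := by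
    ext i j; rfl
  rw [h1]
  ext S T
  rw [ck, Matrix.submatrix_apply, cm_transpose, cm_map, Matrix.transpose_apply, Matrix.map_apply,
    Matrix.conjTranspose_apply]
  rfl

lemma ck_unitary (V : unitary (Matrix (Fin n) (Fin n) ℂ)) :
    ck k (V : Matrix (Fin n) (Fin n) ℂ) ∈ unitary (Matrix (Ix n k) (Ix n k) ℂ) := by
  rw [Unitary.mem_iff]
  rw [← ck_star, ← ck_mul, ← ck_mul]
  constructor
  · rw [Unitary.star_mul_self_of_mem V.2, ck_one]
  · rw [Unitary.mul_star_self_of_mem V.2, ck_one]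

/-- real diagonal matrices -/
noncomputable def dg {ι : Type} [DecidableEq ι] (d : ι → ℝ) : Matrix ι ι ℂ :=
  diagonal (fun i => (d i : ℂ))

lemma dg_mul {ι : Type} [Fintype ι] [DecidableEq ι] (d e : ι → ℝ) :
    dg d * dg e = dg (fun i => d i * e i) := by
  rw [dg, dg, dg, diagonal_mul_diagonal]
  simp

/-- Two diagonalizations give the same functions. -/
lemma dg_fun {ι : Type} [Fintype ι] [DecidableEq ι] (U V : unitary (Matrix ι ι ℂ)) (a b : ι → ℝ)
    (h : (U : Matrix ι ι ℂ) * dg a * star (U : Matrix ι ι ℂ) =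
      (V : Matrix ι ι ℂ) * dg b * star (V : Matrix ι ι ℂ)) (f : ℝ → ℝ) :
    (U : Matrix ι ι ℂ) * dg (fun i => f (a i)) * star (U : Matrix ι ι ℂ) =
      (V : Matrix ι ι ℂ) * dg (fun i => f (b i)) * star (V : Matrix ι ι ℂ) := by
  obtain ⟨W, hW⟩ : ∃ W : Matrix ι ι ℂ, W = star (V : Matrix ι ι ℂ) * U := ⟨_, rfl⟩
  have hU : star (U : Matrix ι ι ℂ) * U = 1 := Unitary.star_mul_self_of_mem U.2
  have hU' : (U : Matrix ι ι ℂ) * star (U : Matrix ι ι ℂ) = 1 := Unitary.mul_star_self_of_mem U.2
  have hV : star (V : Matrix ι ι ℂ) * V = 1 := Unitary.star_mul_self_of_mem V.2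
  have hV' : (V : Matrix ι ι ℂ) * star (V : Matrix ι ι ℂ) = 1 := Unitary.mul_star_self_of_mem V.2
  have h1 : W * dg a = dg b * W := by
    calc W * dg a = star (V : Matrix ι ι ℂ) * (U * dg a * star (U : Matrix ι ι ℂ)) * U := by
          rw [hW]
          calc star (V : Matrix ι ι ℂ) * U * dg a
              = star (V : Matrix ι ι ℂ) * (U * dg a * (star (U : Matrix ι ι ℂ) * U)) := by
                rw [hU, mul_one, mul_assoc]
            _ = _ := by simp only [mul_assoc]
      _ = star (V : Matrix ι ι ℂ) * (V * dg b * star (V : Matrix ι ι ℂ)) * U := by rw [h]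
      _ = (star (V : Matrix ι ι ℂ) * V) * dg b * (star (V : Matrix ι ι ℂ) * U) := by
          simp only [mul_assoc]
      _ = _ := by rw [hV, one_mul, hW]
  have h2 : W * dg (fun i => f (a i)) = dg (fun i => f (b i)) * W := by
    ext i j
    have h3 := congrFun (congrFun h1 i) j
    rw [dg, dg, mul_diagonal, diagonal_mul] at h3
    rw [dg, dg, mul_diagonal, diagonal_mul]
    by_cases hw : W i j = 0
    · rw [hw]; simp
    · have h4 : (a j : ℂ) = b i := by
        have : W i j * ((a j : ℂ) - b i) = 0 := by rw [mul_sub, h3]; ring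
        rcases mul_eq_zero.1 this with h5 | h5
        · exact absurd h5 hw
        · exact sub_eq_zero.1 h5
      have h5 : a j = b i := by exact_mod_cast h4
      rw [h5, mul_comm]
  calc (U : Matrix ι ι ℂ) * dg (fun i => f (a i)) * star (U : Matrix ι ι ℂ)
      = (V * star (V : Matrix ι ι ℂ)) * U * dg (fun i => f (a i)) * star (U : Matrix ι ι ℂ) := by
        rw [hV', one_mul]
    _ = V * (W * dg (fun i => f (a i))) * star (U : Matrix ι ι ℂ) := by
        rw [hW]; simp only [mul_assoc]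
    _ = V * (dg (fun i => f (b i)) * W) * star (U : Matrix ι ι ℂ) := by rw [h2]
    _ = V * dg (fun i => f (b i)) * star (V : Matrix ι ι ℂ) * (U * star (U : Matrix ι ι ℂ)) := by
        rw [hW]; simp only [mul_assoc]
    _ = _ := by rw [hU', mul_one]

/-- the spectral theorem -/
lemma exists_diag {ι : Type} [Fintype ι] [DecidableEq ι] {M : Matrix ι ι ℂ} (hM : 0 ≤ M) :
    ∃ (U : unitary (Matrix ι ι ℂ)) (d : ι → ℝ), (∀ i, 0 ≤ d i) ∧
      M = (U : Matrix ι ι ℂ) * dg d * star (U : Matrix ι ι ℂ) ∧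
      ∀ q : ℝ, M ^ q = (U : Matrix ι ι ℂ) * dg (fun i => d i ^ q) * star (U : Matrix ι ι ℂ) := by
  have hp : M.PosSemidef := hM.posSemidef
  have hH : M.IsHermitian := hp.isHermitian
  refine ⟨hH.eigenvectorUnitary, hH.eigenvalues, hp.eigenvalues_nonneg, ?_, fun q => ?_⟩
  · conv_lhs => rw [hH.spectral_theorem]
    rfl
  · rw [CFC.rpow_eq_cfc_real (ha := hM), hH.cfc_eq]
    rfl

/-- powers of a matrix in diagonal form -/
lemma rpow_diag {ι : Type} [Fintype ι] [DecidableEq ι] (V : unitary (Matrix ι ι ℂ)) (b : ι → ℝ)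
    (hb : ∀ i, 0 ≤ b i) (q : ℝ) :
    ((V : Matrix ι ι ℂ) * dg b * star (V : Matrix ι ι ℂ)) ^ q =
      (V : Matrix ι ι ℂ) * dg (fun i => b i ^ q) * star (V : Matrix ι ι ℂ) := by
  have h0 : 0 ≤ (V : Matrix ι ι ℂ) * dg b * star (V : Matrix ι ι ℂ) := by
    have h1 : (0 : Matrix ι ι ℂ) ≤ dg b := by
      apply PosSemidef.nonneg
      exact PosSemidef.diagonal (fun i => by simpa using hb i)
    have := conj_le h1 (V : Matrix ι ι ℂ)
    simpa using this
  obtain ⟨U, d, hd, hM, hq⟩ := exists_diag h0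
  rw [hq q]
  exact dg_fun U V d b hM.symm (fun x => x ^ q)

end Pool.Agent.L5helper83.Det
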