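import Mathlib

/-!
# Weak log-majorization and the product of `1 + x`
-/

set_option autoImplicit false

namespace Pool.Agent.L5helper83.Det

lemma abel (n : ℕ) (w z : ℕ → ℝ) (hw : ∀ i j, i ≤ j → j < n → w j ≤ w i) (hw0 : ∀ i, 0 ≤ w i)
    (hz : ∀ m ≤ n, 0 ≤ ∑ i ∈ Finset.range m, z i) : 0 ≤ ∑ i ∈ Finset.range n, w i * z i := by
  have key : ∀ m, m < n → w m * ∑ i ∈ Finset.range (m + 1), z i ≤
      ∑ i ∈ Finset.range (m + 1), w i * z i := by
    intro m
    induction m with
    | zero => intro _; simp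
    | succ m ih =>
      intro hm
      rw [Finset.sum_range_succ, Finset.sum_range_succ _ (m + 1), mul_add]
      have h1 := ih (by omega)
      have h2 : w (m + 1) * ∑ i ∈ Finset.range (m + 1), z i ≤
          w m * ∑ i ∈ Finset.range (m + 1), z i :=
        mul_le_mul_of_nonneg_right (hw m (m + 1) (by omega) hm) (hz (m + 1) (by omega))
      linarith
  rcases n with _ | n
  · simp
  · exact (mul_nonneg (hw0 n) (hz (n + 1) le_rfl)).trans (key n (by omega))

/-- tangent inequality for `log (1 + exp x)` -/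
lemma tangent {d e : ℝ} (hd : 0 < d) (he : 0 < e) :
    e / (1 + e) * (Real.log d - Real.log e) ≤ Real.log (1 + d) - Real.log (1 + e) := by
  have h1 : 0 < 1 + e := by linarith
  have h2 : 0 < 1 + d := by linarith
  have h3 := Real.geom_mean_le_arith_mean2_weighted (w₁ := 1 / (1 + e)) (w₂ := e / (1 + e))
    (p₁ := 1) (p₂ := d / e) (by positivity) (by positivity) zero_le_one (by positivity)
    (by field_simp)
  rw [Real.one_rpow, one_mul] at h3
  have h4 : 1 / (1 + e) * 1 + e / (1 + e) * (d / e) = (1 + d) / (1 + e) := by field_simp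
  rw [h4] at h3
  have h5 := Real.log_le_log (by positivity) h3
  rw [Real.log_rpow (by positivity), Real.log_div hd.ne' he.ne', Real.log_div h2.ne' h1.ne'] at h5
  exact h5

/-- a strictly monotone map dominates the identity -/
lemma le_emb {m n : ℕ} (f : Fin m → Fin n) (hf : StrictMono f) (i : Fin m) :
    (i : ℕ) ≤ (f i : ℕ) := by
  obtain ⟨i, hi⟩ := i
  induction i with
  | zero => simp
  | succ i ih =>
    have h1 := ih (by omega)
    have h2 : f ⟨i, by omega⟩ < f ⟨i + 1, hi⟩ := hf (by simp [Fin.lt_def])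
    rw [Fin.lt_def] at h2
    simp only at h1 ⊢
    omega

lemma prod_le_top {n : ℕ} (g : Fin n → ℝ) (hg : Antitone g) (hg0 : ∀ i, 0 < g i)
    (R : Finset (Fin n)) :
    ∏ i ∈ R, g i ≤ ∏ i ∈ Finset.univ.filter (fun i : Fin n => (i : ℕ) < R.card), g i := by
  have hcard : R.card ≤ n := by
    have := Finset.card_le_univ R
    simpa using this
  have h1 : ∏ i ∈ R, g i = ∏ a : Fin R.card, g (R.orderEmbOfFin rfl a) := by
    have h2 : Finset.univ.image (R.orderEmbOfFin rfl) = R := by
      ext x
      rw [Finset.mem_image]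
      constructor
      · rintro ⟨a, -, rfl⟩
        exact R.orderEmbOfFin_mem rfl a
      · intro hx
        have h3 := R.range_orderEmbOfFin rfl
        rw [Set.ext_iff] at h3
        obtain ⟨a, ha⟩ := (h3 x).2 hx
        exact ⟨a, Finset.mem_univ _, ha⟩
    conv_lhs => rw [← h2]
    rw [Finset.prod_image (fun a _ b _ hab => (R.orderEmbOfFin rfl).injective hab)]
  have h2 : ∏ i ∈ Finset.univ.filter (fun i : Fin n => (i : ℕ) < R.card), g i =
      ∏ a : Fin R.card, g (Fin.castLE hcard a) := by
    have h3 : Finset.univ.image (Fin.castLE hcard) =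
        Finset.univ.filter (fun i : Fin n => (i : ℕ) < R.card) := by
      ext x
      rw [Finset.mem_image, Finset.mem_filter]
      constructor
      · rintro ⟨a, -, rfl⟩
        exact ⟨Finset.mem_univ _, a.2⟩
      · rintro ⟨-, hx⟩
        exact ⟨⟨x, hx⟩, Finset.mem_univ _, by ext; rfl⟩
    rw [← h3, Finset.prod_image (fun a _ b _ hab => Fin.castLE_injective hcard hab)]
  rw [h1, h2]
  refine Finset.prod_le_prod (fun a _ => (hg0 _).le) (fun a _ => hg ?_)
  rw [Fin.le_def]
  exact le_emb _ (R.orderEmbOfFin rfl).strictMono a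

/-- **Weak log-majorization.** -/
theorem maj {n : ℕ} (d e : Fin n → ℝ) (hd : ∀ i, 0 < d i) (he : ∀ i, 0 < e i)
    (h : ∀ Q : Finset (Fin n), ∃ R : Finset (Fin n), R.card = Q.card ∧
      ∏ i ∈ Q, e i ≤ ∏ i ∈ R, d i) : ∏ i, (1 + e i) ≤ ∏ i, (1 + d i) := by
  obtain ⟨σ, hσ⟩ : ∃ σ : Equiv.Perm (Fin n), Antitone (e ∘ σ) := by
    refine ⟨Tuple.sort (fun i => -e i), fun a b hab => ?_⟩
    have := Tuple.monotone_sort (fun i => -e i) hab
    simp only [Function.comp_apply] at this ⊢
    linarith
  obtain ⟨τ, hτ⟩ : ∃ τ : Equiv.Perm (Fin n), Antitone (d ∘ τ) := by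
    refine ⟨Tuple.sort (fun i => -d i), fun a b hab => ?_⟩
    have := Tuple.monotone_sort (fun i => -d i) hab
    simp only [Function.comp_apply] at this ⊢
    linarith
  rw [← Equiv.prod_comp σ, ← Equiv.prod_comp τ (fun i => 1 + d i)]
  -- partial products
  have hpart : ∀ m ≤ n, ∏ i ∈ Finset.univ.filter (fun i : Fin n => (i : ℕ) < m), e (σ i) ≤
      ∏ i ∈ Finset.univ.filter (fun i : Fin n => (i : ℕ) < m), d (τ i) := by
    intro m hm
    obtain ⟨F, hF⟩ : ∃ F : Finset (Fin n),
        F = Finset.univ.filter (fun i : Fin n => (i : ℕ) < m) := ⟨_, rfl⟩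
    have hFc : F.card = m := by
      rw [hF]
      have : (Finset.univ.filter (fun i : Fin n => (i : ℕ) < m)) =
          Finset.univ.image (Fin.castLE hm) := by
        ext x
        rw [Finset.mem_image, Finset.mem_filter]
        constructor
        · rintro ⟨-, hx⟩
          exact ⟨⟨x, hx⟩, Finset.mem_univ _, by ext; rfl⟩
        · rintro ⟨a, -, rfl⟩
          exact ⟨Finset.mem_univ _, a.2⟩
      rw [this, Finset.card_image_of_injective _ (Fin.castLE_injective hm), Finset.card_univ,
        Fintype.card_fin]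
    obtain ⟨R, hR, hle⟩ := h (F.map σ.toEmbedding)
    rw [Finset.card_map, hFc] at hR
    rw [Finset.prod_map] at hle
    have h2 := prod_le_top (d ∘ τ) hτ (fun i => hd _) (R.map τ.symm.toEmbedding)
    rw [Finset.prod_map, Finset.card_map, hR] at h2
    simp only [Function.comp_apply, Equiv.coe_toEmbedding, Equiv.apply_symm_apply] at h2 hle
    rw [← hF] at h2 ⊢
    exact hle.trans h2
  -- logarithms
  let z : ℕ → ℝ := fun i => if hi : i < n then Real.log (d (τ ⟨i, hi⟩)) -
    Real.log (e (σ ⟨i, hi⟩)) else 0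
  let w : ℕ → ℝ := fun i => if hi : i < n then e (σ ⟨i, hi⟩) / (1 + e (σ ⟨i, hi⟩)) else 0
  have hab := abel n w z ?_ ?_ ?_
  · have h1 : ∑ i ∈ Finset.range n, w i * z i ≤
        ∑ i : Fin n, (Real.log (1 + d (τ i)) - Real.log (1 + e (σ i))) := by
      rw [Finset.sum_range]
      refine Finset.sum_le_sum fun i _ => ?_
      simp only [w, z, dif_pos i.2]
      exact tangent (hd _) (he _)
    have h2 := hab.trans h1
    rw [Finset.sum_sub_distrib, ← Real.log_prod (fun i _ => by have := hd (τ i); positivity),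
      ← Real.log_prod (fun i _ => by have := he (σ i); positivity), sub_nonneg] at h2
    exact (Real.log_le_log_iff (Finset.prod_pos fun i _ => by have := he (σ i); positivity)
      (Finset.prod_pos fun i _ => by have := hd (τ i); positivity)).1 h2
  · intro i j hij hj
    simp only [w, dif_pos hj, dif_pos (lt_of_le_of_lt hij hj)]
    have h1 : e (σ ⟨j, hj⟩) ≤ e (σ ⟨i, lt_of_le_of_lt hij hj⟩) := hσ (by simpa using hij)
    have h2 := he (σ ⟨j, hj⟩)
    have h3 := he (σ ⟨i, lt_of_le_of_lt hij hj⟩)
    rw [div_le_div_iff₀ (by linarith) (by linarith)]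
    nlinarith
  · intro i
    simp only [w]
    split_ifs with hi
    · have := he (σ ⟨i, hi⟩)
      positivity
    · exact le_rfl
  · intro m hm
    have h1 : ∑ i ∈ Finset.range m, z i =
        ∑ i ∈ Finset.univ.filter (fun i : Fin n => (i : ℕ) < m),
          (Real.log (d (τ i)) - Real.log (e (σ i))) := by
      symm
      refine Finset.sum_bij (fun i _ => (i : ℕ)) ?_ ?_ ?_ ?_
      · intro i hi
        rw [Finset.mem_filter] at hi
        exact Finset.mem_range.2 hi.2
      · intro i _ j _ hij
        exact Fin.ext hij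
      · intro b hb
        have hb' := Finset.mem_range.1 hb
        exact ⟨⟨b, by omega⟩, by simpa using hb', rfl⟩
      · intro i _
        simp only [z, dif_pos i.2]
    rw [h1, Finset.sum_sub_distrib, ← Real.log_prod (fun i _ => (hd (τ i)).ne'),
      ← Real.log_prod (fun i _ => (he (σ i)).ne'), sub_nonneg]
    exact Real.log_le_log (Finset.prod_pos fun i _ => he (σ i)) (hpart m hm)

end Pool.Agent.L5helper83.Det
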