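import Pool.Agent.L5helper83.Det.Cpd
import Pool.Agent.L5helper83.Det.Maj

/-!
# The determinant inequality for positive definite matrices
-/

set_option autoImplicit false

open scoped MatrixOrder ComplexOrder Matrix.Norms.L2Operator NNReal
open Matrix Pool.Agent.N996.FP

namespace Pool.Agent.L5helper83.Det

variable {n : ℕ}

lemma ck_dg (k : ℕ) (d : Fin n → ℝ) : ck k (dg d) = dg (fun S : Ix n k => ∏ i ∈ S.1, d i) := by
  rw [dg, ck_diagonal, dg]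
  congr 1
  funext S
  push_cast
  rfl

lemma ck_diagform (k : ℕ) (U : unitary (Matrix (Fin n) (Fin n) ℂ)) (d : Fin n → ℝ) :
    ck k ((U : Matrix (Fin n) (Fin n) ℂ) * dg d * star (U : Matrix (Fin n) (Fin n) ℂ)) =
      ((⟨ck k (U : Matrix (Fin n) (Fin n) ℂ), ck_unitary k U⟩ : unitary (Matrix (Ix n k) (Ix n k) ℂ)) :
        Matrix (Ix n k) (Ix n k) ℂ) * dg (fun S : Ix n k => ∏ i ∈ S.1, d i) *
      star ((⟨ck k (U : Matrix (Fin n) (Fin n) ℂ), ck_unitary k U⟩ :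
        unitary (Matrix (Ix n k) (Ix n k) ℂ)) : Matrix (Ix n k) (Ix n k) ℂ) := by
  rw [ck_mul, ck_mul, ck_dg, ck_star]

lemma ck_rpow (k : ℕ) {M : Matrix (Fin n) (Fin n) ℂ} (hM : 0 ≤ M) (q : ℝ) :
    ck k (M ^ q) = (ck k M) ^ q := by
  obtain ⟨U, d, hd, hU, hq⟩ := exists_diag hM
  rw [hq q]
  conv_rhs => rw [hU]
  rw [ck_diagform, ck_diagform, rpow_diag _ _ (fun S => Finset.prod_nonneg fun i _ => hd i)]
  congr 3
  funext S
  exact Real.finsetProd_rpow _ _ (fun i _ => hd i) q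

lemma dg_nonneg {ι : Type} [Fintype ι] [DecidableEq ι] {d : ι → ℝ} (h : ∀ i, 0 ≤ d i) :
    (0 : Matrix ι ι ℂ) ≤ dg d :=
  (PosSemidef.diagonal (fun i => by simpa using h i)).nonneg

lemma dg_entry {ι : Type} [Fintype ι] [DecidableEq ι] {d : ι → ℝ}
    (h : (0 : Matrix ι ι ℂ) ≤ dg d) (i : ι) : 0 ≤ d i := by
  have := h.posSemidef.diag_nonneg (i := i)
  rw [dg, diagonal_apply_eq] at this
  exact_mod_cast this

lemma smul_one_dg {ι : Type} [Fintype ι] [DecidableEq ι] (c : ℝ≥0) :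
    (c • (1 : Matrix ι ι ℂ)) = dg (fun _ => (c : ℝ)) := by
  have h : (c • (1 : Matrix ι ι ℂ)) = (c : ℝ) • (1 : Matrix ι ι ℂ) := rfl
  rw [h, dg]
  ext i j
  rw [Matrix.smul_apply, Matrix.one_apply, Matrix.diagonal_apply]
  split_ifs <;> simp

lemma dg_sub {ι : Type} [DecidableEq ι] (d e : ι → ℝ) : dg d - dg e = dg (fun i => d i - e i) := by
  rw [dg, dg, dg, diagonal_sub]
  congr 1
  funext i
  push_cast
  rfl

lemma conj_smul_one {ι : Type} [Fintype ι] [DecidableEq ι] (V : unitary (Matrix ι ι ℂ)) (c : ℝ≥0) :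
    (V : Matrix ι ι ℂ) * (c • (1 : Matrix ι ι ℂ)) * star (V : Matrix ι ι ℂ) = c • 1 := by
  rw [mul_smul_comm, mul_one, smul_mul_assoc, Unitary.mul_star_self_of_mem V.2]

/-- a matrix in diagonal form is at most `c` iff the diagonal entries are -/
lemma diag_le {ι : Type} [Fintype ι] [DecidableEq ι] (V : unitary (Matrix ι ι ℂ)) (d : ι → ℝ)
    (c : ℝ≥0) :
    (V : Matrix ι ι ℂ) * dg d * star (V : Matrix ι ι ℂ) ≤ c • (1 : Matrix ι ι ℂ) ↔ ∀ i, d i ≤ c := by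
  constructor
  · intro h i
    have h1 := conj_le h (star (V : Matrix ι ι ℂ))
    rw [star_star] at h1
    have h2 : star (V : Matrix ι ι ℂ) * ((V : Matrix ι ι ℂ) * dg d * star (V : Matrix ι ι ℂ)) *
        (V : Matrix ι ι ℂ) = dg d := by
      calc _ = (star (V : Matrix ι ι ℂ) * V) * dg d * (star (V : Matrix ι ι ℂ) * V) := by
            simp only [mul_assoc]
        _ = _ := by rw [Unitary.star_mul_self_of_mem V.2, one_mul, mul_one]
    have h3 : star (V : Matrix ι ι ℂ) * (c • (1 : Matrix ι ι ℂ)) * (V : Matrix ι ι ℂ) = c • 1 := by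
      rw [mul_smul_comm, mul_one, smul_mul_assoc, Unitary.star_mul_self_of_mem V.2]
    rw [h2, h3, smul_one_dg, ← sub_nonneg, dg_sub] at h1
    have := dg_entry h1 i
    linarith
  · intro h
    rw [← conj_smul_one V c]
    refine conj_le ?_ _
    rw [smul_one_dg, ← sub_nonneg, dg_sub]
    exact dg_nonneg fun i => by have := h i; linarith

lemma ck_nonneg (k : ℕ) {M : Matrix (Fin n) (Fin n) ℂ} (hM : 0 ≤ M) : 0 ≤ ck k M := by
  obtain ⟨U, d, hd, hU, -⟩ := exists_diag hM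
  rw [hU, ck_diagform]
  have h1 : (0 : Matrix (Ix n k) (Ix n k) ℂ) ≤ dg (fun S : Ix n k => ∏ i ∈ S.1, d i) :=
    dg_nonneg fun S => Finset.prod_nonneg fun i _ => hd i
  have := conj_le h1 (ck k (U : Matrix (Fin n) (Fin n) ℂ))
  simpa using this

lemma ck_sp (k : ℕ) {M : Matrix (Fin n) (Fin n) ℂ} (hM : IsStrictlyPositive M) :
    IsStrictlyPositive (ck k M) := by
  rw [IsStrictlyPositive.iff_of_unital]
  refine ⟨ck_nonneg k hM.nonneg, ?_⟩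
  obtain ⟨u, hu⟩ := hM.isUnit
  refine ⟨⟨ck k (u : Matrix (Fin n) (Fin n) ℂ), ck k ((u⁻¹ : (Matrix (Fin n) (Fin n) ℂ)ˣ) :
    Matrix (Fin n) (Fin n) ℂ), ?_, ?_⟩, by rw [← hu]⟩
  · rw [← ck_mul, Units.mul_inv, ck_one]
  · rw [← ck_mul, Units.inv_mul, ck_one]

lemma det_diagform (U : unitary (Matrix (Fin n) (Fin n) ℂ)) (d : Fin n → ℝ) :
    ((U : Matrix (Fin n) (Fin n) ℂ) * dg d * star (U : Matrix (Fin n) (Fin n) ℂ)).det =
      ((∏ i, d i : ℝ) : ℂ) := by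
  rw [det_mul, det_mul, dg, det_diagonal]
  have h : (U : Matrix (Fin n) (Fin n) ℂ).det * (star (U : Matrix (Fin n) (Fin n) ℂ)).det = 1 := by
    rw [← det_mul, Unitary.mul_star_self_of_mem U.2, det_one]
  calc (U : Matrix (Fin n) (Fin n) ℂ).det * (∏ i, (d i : ℂ)) *
        (star (U : Matrix (Fin n) (Fin n) ℂ)).det
      = ((U : Matrix (Fin n) (Fin n) ℂ).det * (star (U : Matrix (Fin n) (Fin n) ℂ)).det) *
        ∏ i, (d i : ℂ) := by ring
    _ = _ := by rw [h, one_mul]; push_cast; rfl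

/-- diagonal form of a strictly positive matrix -/
lemma exists_diag_pos {M : Matrix (Fin n) (Fin n) ℂ} (hM : IsStrictlyPositive M) :
    ∃ (U : unitary (Matrix (Fin n) (Fin n) ℂ)) (d : Fin n → ℝ), (∀ i, 0 < d i) ∧
      M = (U : Matrix (Fin n) (Fin n) ℂ) * dg d * star (U : Matrix (Fin n) (Fin n) ℂ) := by
  obtain ⟨U, d, hd, hU, -⟩ := exists_diag hM.nonneg
  refine ⟨U, d, fun i => lt_of_le_of_ne (hd i) fun h0 => ?_, hU⟩
  have h1 : M.det ≠ 0 := ((Matrix.isUnit_iff_isUnit_det M).1 hM.isUnit).ne_zero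
  rw [hU, det_diagform] at h1
  apply h1
  rw [Finset.prod_eq_zero (Finset.mem_univ i) h0.symm]
  simp

lemma det_one_add_diagform (U : unitary (Matrix (Fin n) (Fin n) ℂ)) (d : Fin n → ℝ) :
    (1 + (U : Matrix (Fin n) (Fin n) ℂ) * dg d * star (U : Matrix (Fin n) (Fin n) ℂ)).det =
      ((∏ i, (1 + d i) : ℝ) : ℂ) := by
  have h : 1 + (U : Matrix (Fin n) (Fin n) ℂ) * dg d * star (U : Matrix (Fin n) (Fin n) ℂ) =
      (U : Matrix (Fin n) (Fin n) ℂ) * dg (fun i => 1 + d i) *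
        star (U : Matrix (Fin n) (Fin n) ℂ) := by
    have h1 : (dg (fun i => 1 + d i) : Matrix (Fin n) (Fin n) ℂ) = 1 + dg d := by
      rw [dg, dg, ← diagonal_one, diagonal_add]
      congr 1
      funext i
      push_cast
      rfl
    rw [h1, mul_add, add_mul, mul_one, Unitary.mul_star_self_of_mem U.2]
  rw [h, det_diagform]

/-- the comparison of the products of eigenvalues -/
lemma prod_cmp {S T : Matrix (Fin n) (Fin n) ℂ} (hS : IsStrictlyPositive S)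
    (hT : IsStrictlyPositive T) {r : ℝ} (h0 : 0 < r) (h1 : r ≤ 1)
    (U V : unitary (Matrix (Fin n) (Fin n) ℂ)) (d e : Fin n → ℝ) (hd : ∀ i, 0 < d i)
    (hD : S ^ (-(1 / 2) : ℝ) * (T ^ (1 / 2 : ℝ) * S * T ^ (1 / 2 : ℝ)) ^ r * S ^ (-(1 / 2) : ℝ) =
      (U : Matrix (Fin n) (Fin n) ℂ) * dg d * star (U : Matrix (Fin n) (Fin n) ℂ))
    (hE : S ^ (-((1 - r) / 2)) * T ^ r * S ^ (-((1 - r) / 2)) =
      (V : Matrix (Fin n) (Fin n) ℂ) * dg e * star (V : Matrix (Fin n) (Fin n) ℂ))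
    (Q : Finset (Fin n)) :
    ∃ R : Finset (Fin n), R.card = Q.card ∧ ∏ i ∈ Q, e i ≤ ∏ i ∈ R, d i := by
  obtain ⟨k, hk⟩ : ∃ k, k = Q.card := ⟨_, rfl⟩
  obtain ⟨R, -, hR⟩ := Finset.exists_max_image (Finset.univ : Finset (Ix n k))
    (fun R => ∏ i ∈ R.1, d i) ⟨⟨Q, hk.symm⟩, Finset.mem_univ _⟩
  refine ⟨R.1, by rw [R.2, hk], ?_⟩
  have hc0 : 0 < ∏ i ∈ R.1, d i := Finset.prod_pos fun i _ => hd i
  obtain ⟨c, hc⟩ : ∃ c : ℝ≥0, (c : ℝ) = ∏ i ∈ R.1, d i := ⟨⟨_, hc0.le⟩, rfl⟩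
  have hcne : c ≠ 0 := by
    intro h
    rw [h] at hc
    simp only [NNReal.coe_zero] at hc
    linarith
  have hSk := ck_sp k hS
  have hTk := ck_sp k hT
  have hW : 0 ≤ T ^ (1 / 2 : ℝ) * S * T ^ (1 / 2 : ℝ) := by
    have := conj_le' hS.nonneg (c := T ^ (1 / 2 : ℝ)) (sa _)
    simpa using this
  -- step 1
  have s1 : ck k S ^ (-(1 / 2) : ℝ) *
      (ck k T ^ (1 / 2 : ℝ) * ck k S * ck k T ^ (1 / 2 : ℝ)) ^ r * ck k S ^ (-(1 / 2) : ℝ) ≤
      c • (1 : Matrix (Ix n k) (Ix n k) ℂ) := by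
    have e1 : ck k (S ^ (-(1 / 2) : ℝ) * (T ^ (1 / 2 : ℝ) * S * T ^ (1 / 2 : ℝ)) ^ r *
        S ^ (-(1 / 2) : ℝ)) = ck k S ^ (-(1 / 2) : ℝ) *
        (ck k T ^ (1 / 2 : ℝ) * ck k S * ck k T ^ (1 / 2 : ℝ)) ^ r * ck k S ^ (-(1 / 2) : ℝ) := by
      rw [ck_mul, ck_mul, ck_rpow k hS.nonneg, ck_rpow k hW, ck_mul, ck_mul,
        ck_rpow k hT.nonneg]
    rw [← e1, hD, ck_diagform]
    exact (diag_le _ _ c).2 fun S' => by rw [hc]; exact hR S' (Finset.mem_univ _)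
  -- step 2
  have hss : ck k S ^ (1 / 2 : ℝ) * ck k S ^ (1 / 2 : ℝ) = ck k S := by
    rw [add_rpow hSk]; norm_num; exact CFC.rpow_one _ hSk.nonneg
  have hsi : ck k S ^ (1 / 2 : ℝ) * ck k S ^ (-(1 / 2) : ℝ) = 1 := by
    rw [add_rpow hSk]; norm_num; exact CFC.rpow_zero _ hSk.nonneg
  have hsi' : ck k S ^ (-(1 / 2) : ℝ) * ck k S ^ (1 / 2 : ℝ) = 1 := by
    rw [add_rpow hSk]; norm_num; exact CFC.rpow_zero _ hSk.nonneg
  have s2 : (ck k T ^ (1 / 2 : ℝ) * ck k S * ck k T ^ (1 / 2 : ℝ)) ^ r ≤ c • ck k S := by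
    have h2 := conj_le' s1 (c := ck k S ^ (1 / 2 : ℝ)) (sa _)
    have e2 : ck k S ^ (1 / 2 : ℝ) * (ck k S ^ (-(1 / 2) : ℝ) *
        (ck k T ^ (1 / 2 : ℝ) * ck k S * ck k T ^ (1 / 2 : ℝ)) ^ r * ck k S ^ (-(1 / 2) : ℝ)) *
        ck k S ^ (1 / 2 : ℝ) = (ck k T ^ (1 / 2 : ℝ) * ck k S * ck k T ^ (1 / 2 : ℝ)) ^ r := by
      generalize (ck k T ^ (1 / 2 : ℝ) * ck k S * ck k T ^ (1 / 2 : ℝ)) ^ r = Z
      calc _ = (ck k S ^ (1 / 2 : ℝ) * ck k S ^ (-(1 / 2) : ℝ)) * Z *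
            (ck k S ^ (-(1 / 2) : ℝ) * ck k S ^ (1 / 2 : ℝ)) := by simp only [mul_assoc]
        _ = Z := by rw [hsi, hsi', one_mul, mul_one]
    have e3 : ck k S ^ (1 / 2 : ℝ) * (c • (1 : Matrix (Ix n k) (Ix n k) ℂ)) *
        ck k S ^ (1 / 2 : ℝ) = c • ck k S := by
      rw [mul_smul_comm, mul_one, smul_mul_assoc, hss]
    rwa [e2, e3] at h2
  -- step 3
  have s3 := oi_smul hSk hTk h0 h1 c hcne s2
  have s4 := conj_le' s3 (c := ck k S ^ (-((1 - r) / 2))) (sa _)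
  have e4 : ck k S ^ (-((1 - r) / 2)) * c • ck k S ^ (1 - r) * ck k S ^ (-((1 - r) / 2)) =
      c • (1 : Matrix (Ix n k) (Ix n k) ℂ) := by
    rw [mul_smul_comm, smul_mul_assoc, add_rpow hSk, add_rpow hSk]
    have : -((1 - r) / 2) + (1 - r) + -((1 - r) / 2) = 0 := by ring
    rw [this, CFC.rpow_zero _ hSk.nonneg]
  have e5 : ck k S ^ (-((1 - r) / 2)) * ck k T ^ r * ck k S ^ (-((1 - r) / 2)) =
      ck k (S ^ (-((1 - r) / 2)) * T ^ r * S ^ (-((1 - r) / 2))) := by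
    rw [ck_mul, ck_mul, ck_rpow k hS.nonneg, ck_rpow k hT.nonneg]
  rw [e4, e5, hE, ck_diagform] at s4
  have := (diag_le _ _ c).1 s4 ⟨Q, hk.symm⟩
  rw [hc] at this
  exact this

/-- **The inequality for positive definite matrices.** -/
theorem det_pd {S T : Matrix (Fin n) (Fin n) ℂ} (hS : IsStrictlyPositive S)
    (hT : IsStrictlyPositive T) {r : ℝ} (h0 : 0 < r) (h1 : r ≤ 1) :
    0 ≤ (S + S ^ r * T ^ r).det ∧
    (S + S ^ r * T ^ r).det ≤ (S + (T ^ (1 / 2 : ℝ) * S * T ^ (1 / 2 : ℝ)) ^ r).det := by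
  have hWp : IsStrictlyPositive (T ^ (1 / 2 : ℝ) * S * T ^ (1 / 2 : ℝ)) := by
    rw [IsStrictlyPositive.iff_of_unital]
    refine ⟨?_, ?_⟩
    · have := conj_le' hS.nonneg (c := T ^ (1 / 2 : ℝ)) (sa _)
      simpa using this
    · exact ((hT.rpow T _).isUnit.mul hS.isUnit).mul (hT.rpow T _).isUnit
  obtain ⟨W, hW⟩ : ∃ W, W = T ^ (1 / 2 : ℝ) * S * T ^ (1 / 2 : ℝ) := ⟨_, rfl⟩
  have hDp : IsStrictlyPositive (S ^ (-(1 / 2) : ℝ) * (T ^ (1 / 2 : ℝ) * S * T ^ (1 / 2 : ℝ)) ^ r *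
      S ^ (-(1 / 2) : ℝ)) := by
    rw [IsStrictlyPositive.iff_of_unital]
    refine ⟨?_, ?_⟩
    · have := conj_le' (hWp.rpow _ r).nonneg (c := S ^ (-(1 / 2) : ℝ)) (sa _)
      simpa using this
    · exact ((hS.rpow S _).isUnit.mul (hWp.rpow _ r).isUnit).mul (hS.rpow S _).isUnit
  have hEp : IsStrictlyPositive (S ^ (-((1 - r) / 2)) * T ^ r * S ^ (-((1 - r) / 2))) := by
    rw [IsStrictlyPositive.iff_of_unital]
    refine ⟨?_, ?_⟩
    · have := conj_le' (hT.rpow _ r).nonneg (c := S ^ (-((1 - r) / 2))) (sa _)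
      simpa using this
    · exact ((hS.rpow S _).isUnit.mul (hT.rpow _ r).isUnit).mul (hS.rpow S _).isUnit
  obtain ⟨U, d, hd, hD⟩ := exists_diag_pos hDp
  obtain ⟨V, e, he, hE⟩ := exists_diag_pos hEp
  obtain ⟨P, s, hs, hP⟩ := exists_diag_pos hS
  have hmaj := maj d e hd he (fun Q => prod_cmp hS hT h0 h1 U V d e hd hD hE Q)
  have hdetS : S.det = ((∏ i, s i : ℝ) : ℂ) := by
    conv_lhs => rw [hP]
    exact det_diagform P s
  -- left determinant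
  have hL : (S + S ^ r * T ^ r).det = (((∏ i, s i) * ∏ i, (1 + e i) : ℝ) : ℂ) := by
    have e1 : S + S ^ r * T ^ r = S * (1 + S ^ (-((1 - r) / 2)) * (S ^ (-((1 - r) / 2)) * T ^ r)) := by
      rw [mul_add, mul_one]
      congr 1
      calc S ^ r * T ^ r = (S ^ (1 : ℝ) * S ^ (-((1 - r) / 2)) * S ^ (-((1 - r) / 2))) * T ^ r := by
            rw [add_rpow hS, add_rpow hS]
            congr 2
            ring
        _ = _ := by rw [CFC.rpow_one S hS.nonneg]; simp only [mul_assoc]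
    rw [e1, det_mul, det_one_add_mul_comm, hdetS, hE, det_one_add_diagform]
    push_cast
    ring
  have hR : (S + (T ^ (1 / 2 : ℝ) * S * T ^ (1 / 2 : ℝ)) ^ r).det =
      (((∏ i, s i) * ∏ i, (1 + d i) : ℝ) : ℂ) := by
    rw [← hW] at hD ⊢
    have hss : S ^ (1 / 2 : ℝ) * S ^ (1 / 2 : ℝ) = S := by
      rw [add_rpow hS]; norm_num; exact CFC.rpow_one _ hS.nonneg
    have hsi : S ^ (1 / 2 : ℝ) * S ^ (-(1 / 2) : ℝ) = 1 := by
      rw [add_rpow hS]; norm_num; exact CFC.rpow_zero _ hS.nonneg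
    have hsi' : S ^ (-(1 / 2) : ℝ) * S ^ (1 / 2 : ℝ) = 1 := by
      rw [add_rpow hS]; norm_num; exact CFC.rpow_zero _ hS.nonneg
    have e1 : S + W ^ r = S ^ (1 / 2 : ℝ) * (1 + S ^ (-(1 / 2) : ℝ) * W ^ r * S ^ (-(1 / 2) : ℝ)) *
        S ^ (1 / 2 : ℝ) := by
      rw [mul_add, add_mul, mul_one, hss]
      congr 1
      calc W ^ r = (S ^ (1 / 2 : ℝ) * S ^ (-(1 / 2) : ℝ)) * W ^ r *
            (S ^ (-(1 / 2) : ℝ) * S ^ (1 / 2 : ℝ)) := by rw [hsi, hsi', one_mul, mul_one]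
        _ = _ := by simp only [mul_assoc]
    rw [e1, det_mul, det_mul, hD, det_one_add_diagform]
    have e2 : (S ^ (1 / 2 : ℝ)).det * (S ^ (1 / 2 : ℝ)).det = ((∏ i, s i : ℝ) : ℂ) := by
      rw [← det_mul, hss, hdetS]
    calc (S ^ (1 / 2 : ℝ)).det * ((∏ i, (1 + d i) : ℝ) : ℂ) * (S ^ (1 / 2 : ℝ)).det
        = ((S ^ (1 / 2 : ℝ)).det * (S ^ (1 / 2 : ℝ)).det) * ((∏ i, (1 + d i) : ℝ) : ℂ) := by ring
      _ = _ := by rw [e2]; push_cast; rfl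
  have hs0 : 0 ≤ ∏ i, s i := Finset.prod_nonneg fun i _ => (hs i).le
  rw [hL, hR]
  constructor
  · have : 0 ≤ (∏ i, s i) * ∏ i, (1 + e i) :=
      mul_nonneg hs0 (Finset.prod_nonneg fun i _ => by have := he i; linarith)
    exact_mod_cast this
  · have := mul_le_mul_of_nonneg_left hmaj hs0
    exact_mod_cast this

end Pool.Agent.L5helper83.Det
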